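import Pool.Agent.Results.MP_5049a2_lc.FourAgents

/-!
Groupwise maximin shares with additive valuations: the best guaranteed factor is at most `20/21`.
-/

set_option autoImplicit false

namespace Pool.Agent.Results.MP_7939ee_co.GroupwiseBound

open Pool.Agent.Results.MP_5049a2_lc

/-- The value, for the additive valuation with values `v`, of the goods that have a label in the
set `T` and that the map `P` sends to `j`. -/
noncomputable def partVal {m k : ℕ} (v : Fin m → ℝ) (T : Finset (Fin m)) (P : Fin m → Fin k)
    (j : Fin k) : ℝ :=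
  ∑ g ∈ T, if P g = j then v g else 0

/-- The maximin share `μ^k(T)` of an agent with values `v` for the set `T` of goods among `k`
bundles: the maximum over all partitions of `T` into `k` parts of the least value of a part. -/
noncomputable def mmsOn {m : ℕ} (v : Fin m → ℝ) (T : Finset (Fin m)) (k : ℕ) : ℝ :=
  ⨆ P : Fin m → Fin k, ⨅ j, partVal v T P j

/-- The goods that the allocation `A` gives to the agents of the set `S`. -/
def union {n m : ℕ} (A : Fin m → Fin n) (S : Finset (Fin n)) : Finset (Fin m) :=
  Finset.univ.filter fun g => A g ∈ S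

/-- `GMMS_i(A)`: the maximum over all sets `S` of agents containing `i` of the maximin share of
`i` for the goods of the agents in `S` among `|S|` bundles. -/
noncomputable def gmms {n m : ℕ} (v : Fin m → ℝ) (A : Fin m → Fin n) (i : Fin n) : ℝ :=
  ⨆ S : {S : Finset (Fin n) // i ∈ S}, mmsOn v (union A S) (S : Finset (Fin n)).card

/-- The allocation `A` is `α`-GMMS for the valuations `v`. -/
def IsAlphaGMMS {n m : ℕ} (α : ℝ) (v : Fin n → Fin m → ℝ) (A : Fin m → Fin n) : Prop :=
  ∀ i, α * gmms (v i) A i ≤ partVal (v i) Finset.univ A i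

/-- The set of the `α` in `(0, 1]` such that every additive instance (with at least one agent)
admits an `α`-GMMS allocation. -/
def goodSet : Set ℝ :=
  {α : ℝ | 0 < α ∧ α ≤ 1 ∧ ∀ (n m : ℕ) (v : Fin n → Fin m → ℝ), 0 < n → (∀ i g, 0 ≤ v i g) →
    ∃ A : Fin m → Fin n, IsAlphaGMMS α v A}

theorem mms_le_gmms {n m : ℕ} (v : Fin m → ℝ) (A : Fin m → Fin n) (i : Fin n) :
    FourAgents.mms n v ≤ gmms v A i := by
  have h1 : mmsOn v (union A Finset.univ) (Finset.univ : Finset (Fin n)).card ≤ gmms v A i := by
    unfold gmms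
    exact le_ciSup (f := fun S : {S : Finset (Fin n) // i ∈ S} =>
      mmsOn v (union A S) (S : Finset (Fin n)).card) (Set.finite_range _).bddAbove
      ⟨Finset.univ, Finset.mem_univ i⟩
  have h2 : mmsOn v (union A Finset.univ) (Finset.univ : Finset (Fin n)).card =
      FourAgents.mms n v := by
    rw [Finset.card_univ, Fintype.card_fin]
    unfold mmsOn FourAgents.mms partVal FourAgents.bundleVal union
    simp
  exact h2 ▸ h1

/-- In an `α`-GMMS allocation everybody gets an `α` fraction of her maximin share. -/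
theorem isAlphaMMS {n m : ℕ} {α : ℝ} (hα : 0 ≤ α) {v : Fin n → Fin m → ℝ} {A : Fin m → Fin n}
    (h : IsAlphaGMMS α v A) : FourAgents.IsAlphaMMS α v A := fun i =>
  (mul_le_mul_of_nonneg_left (mms_le_gmms (v i) A i) hα).trans (h i)

/-- There is an additive instance with four agents and eleven goods that admits no `α`-GMMS
allocation for any `α > 20/21`; hence the best guaranteed factor is at most `20/21`. -/
theorem result :
    (∃ v : Fin 4 → Fin 11 → ℝ, (∀ i g, 0 < v i g) ∧
      ∀ α : ℝ, 20 / 21 < α → ∀ A : Fin 11 → Fin 4, ¬ IsAlphaGMMS α v A) ∧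
    sSup goodSet ≤ 20 / 21 := by
  obtain ⟨v, hv, h⟩ := FourAgents.result.1
  have key : ∀ α : ℝ, 20 / 21 < α → ∀ A : Fin 11 → Fin 4, ¬ IsAlphaGMMS α v A := by
    intro α hα A hA
    exact h α hα A (isAlphaMMS (by linarith) hA)
  refine ⟨⟨v, hv, key⟩, Real.sSup_le (fun α hα => ?_) (by norm_num)⟩
  by_contra hlt
  push Not at hlt
  obtain ⟨A, hA⟩ := hα.2.2 4 11 v (by norm_num) fun i g => (hv i g).le
  exact key α hlt A hA

end Pool.Agent.Results.MP_7939ee_co.GroupwiseBound
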